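import Mathlib
import Pool.Agent.H541R3.ART.Irr
import Pool.Agent.Y786.HK.Many

/-!
# Artin L-functions of symmetric groups: almost all characters at zeros of exponential order

`Pool.Agent.H541R3.ART.Irr G` is the set of irreducible complex characters of the finite group `G`.

`Pool.Agent.H541R3.ART.ArtinData G s₀` is a family of functions with the formal properties of the
Artin L-functions of a Galois extension `E/K` with group `G` near a point `s₀ ≠ 1`: functions
`L χ` for the irreducible characters `χ` of `G` and `Lin H ψ` for the linear characters `ψ` of the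
subgroups `H`, such that `L χ` is meromorphic and not identically zero near `s₀` (Brauer), `Lin H ψ`
has no pole at `s₀` (Artin reciprocity and Hecke), and `Lin H ψ` is the product of the
`L χ ^ ⟨χ|_H, ψ⟩` (induction). In particular `Lin ⊥ 1` stands for the Dedekind zeta function of `E`.

Proof. The order of `L χ` at `s₀` is at most `r` times the mean of `|χ|`, where `r` is the order of
the zeta function of the top field. The sum of these means over the irreducible characters is, by
orthogonality of the columns and the Cauchy-Schwarz inequality, at most `√K` times the mean of the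
square root of the order of the centralizer of a permutation, and this mean is subexponential in
`√n`, while the number `K` of the irreducible characters is exponential in `√n`.
-/

set_option autoImplicit false

open Pool.Agent.H541R3.ART Pool.Agent.Y786.HK Equiv

/-- Let `K n` be the number of the irreducible characters of `S_n` (the number of the partitions of
`n`); it is at least `2 ^ (⌊√n⌋ - 1)`. For every `ε > 0` there is a constant `C` such that for all
`n` and `R` all but at most `C R (K n) ^ (1 / 2 + ε)` irreducible characters `χ` of `S_n` have the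
following property: for every Galois extension `E/K` with group `S_n` and every point `s₀` at which
the Dedekind zeta function of `E` has order at most `R`, the Artin L-function of `χ` is holomorphic
and nonzero at `s₀`. -/
theorem Pool.Agent.Results.MP_d2121a_nt.AlmostAllCharacters.result :
    (∀ n : ℕ, 2 ^ (Nat.sqrt n) ≤ 2 * Nat.card (Irr (Perm (Fin n)))) ∧
    ∀ ε : ℝ, 0 < ε → ∃ C : ℝ, ∀ n R : ℕ, ∃ X : Finset (Perm (Fin n) → ℂ),
      (X.card : ℝ) ≤ C * R * (Nat.card (Irr (Perm (Fin n))) : ℝ) ^ (1 / 2 + ε) ∧
      ∀ χ ∈ Irr (Perm (Fin n)), χ ∉ X →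
        ∀ (s₀ : ℂ) (A : ArtinData (Perm (Fin n)) s₀) (r : ℕ), r ≤ R →
          meromorphicOrderAt (A.Lin ⊥ 1) s₀ = (r : WithTop ℤ) →
          meromorphicOrderAt (A.L χ) s₀ = 0 := by
  classical
  have hK : ∀ n : ℕ, Nat.card (Irr (Perm (Fin n))) = (irrF (Perm (Fin n))).card := by
    intro n
    rw [Nat.card_coe_set_eq, irrF, Set.ncard_eq_toFinset_card _ irr_finite]
  refine ⟨fun n => by rw [hK]; exact two_pow_sqrt_le n, fun ε hε => ?_⟩
  obtain ⟨C, hC0, hC⟩ := absorb ε hε
  refine ⟨C, fun n R => ?_⟩
  set X : Finset (Perm (Fin n) → ℂ) := (irrF (Perm (Fin n))).filter fun χ =>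
    (n.factorial : ℝ) ≤ R * ∑ g : Perm (Fin n), ‖χ g‖ with hX
  refine ⟨X, ?_, ?_⟩
  · obtain ⟨N, hN, hexp⟩ := hC n
    have h1 := card_large_le n N R hN X (Finset.filter_subset _ _)
      fun χ hχ => (Finset.mem_filter.mp hχ).2
    have hKpos : (0 : ℝ) < ((irrF (Perm (Fin n))).card : ℝ) := by
      have h2 := two_pow_sqrt_le n
      have h3 : 0 < 2 ^ (Nat.sqrt n) := by positivity
      exact_mod_cast (by omega : 0 < (irrF (Perm (Fin n))).card)
    rw [hK, Real.rpow_add hKpos, ← Real.sqrt_eq_rpow]
    calc (X.card : ℝ) ≤ R * (Real.sqrt ((irrF (Perm (Fin n))).card)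
          * Real.exp (n / N + 12 * Real.sqrt N)) := h1
      _ ≤ R * (Real.sqrt ((irrF (Perm (Fin n))).card)
          * (C * ((irrF (Perm (Fin n))).card : ℝ) ^ ε)) := by gcongr
      _ = _ := by ring
  · intro χ hχ hχX s₀ A r hrR hr
    refine order_zero_of_small hrR A hr hχ ?_
    by_contra h
    push Not at h
    exact hχX (Finset.mem_filter.mpr ⟨mem_irrF.mpr hχ, h⟩)
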