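import Mathlib
import Pool.Agent.Y786.FR.Main

/-!
# Artin's holomorphy conjecture for extensions with an arbitrary Galois group

`Pool.Agent.H541R3.ART.Irr G` is the set of irreducible complex characters of the finite group `G`.

`Pool.Agent.H541R3.ART.ArtinData Γ s₀` is a family of functions with the formal properties of the
Artin L-functions of a Galois extension `E/K₀` with group `Γ` near a point `s₀ ≠ 1`: functions
`L ψ` for the irreducible characters `ψ` of `Γ` and `Lin H l` for the linear characters `l` of the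
subgroups `H`, such that `L ψ` is meromorphic and not identically zero near `s₀` (Brauer), `Lin H l`
has no pole at `s₀` (Artin reciprocity and Hecke), and `Lin H l` is the product of the
`L ψ ^ ⟨ψ|_H, l⟩` (induction).

`Pool.Agent.Y786.FR.Induced ι A M`, for an embedding `ι` of `G` in `Γ`, says that near `s₀` the
function `M χ` is the product of the `L ψ ^ ⟨ψ ∘ ι, χ⟩` for every irreducible character `χ` of `G`:
by the induction property this is the Artin L-function `L(s, χ, E/K)`, where `K` is the fixed field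
of `ι(G)`.

`Pool.Agent.Y786.FR.ind ι χ` is the induced class function: its value at `σ` is
`|G|⁻¹ ∑_τ χ(ι⁻¹(τ⁻¹ σ τ))`, the sum over the `τ` in `Γ` with `τ⁻¹ σ τ` in `ι(G)`.
-/

set_option autoImplicit false

open Pool.Agent.H541R3.ART Pool.Agent.Y786.FR Filter Topology

/-- For every `N` there is `m₀ ≥ 1` such that, for every multiple `m ≥ 1` of `m₀`, for every finite
group `Γ` containing the symmetric group `S_m` (through `j`), and for every group `G ≤ S_m` of order
at most `N` which acts freely on the `m` points (for `m = m₀` every group of order at most `N` has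
such an embedding `ι`): for every irreducible character `χ` of `G` some positive multiple of the
character of `Γ` induced from `χ` is a sum of characters induced from linear characters `l i` of
subgroups `H i` of `Γ`. Consequently, for every Galois extension `E/K₀` of number fields with group
`Γ` and with `K` the fixed field of `G`, the `k`-th power of the Artin L-function
`M χ = L(s, χ, E/K)` is the product of the Hecke L-functions `Lin (H i) (l i)`, and `M χ` is
holomorphic at every point `s₀ ≠ 1`. -/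
theorem Pool.Agent.Results.MP_d2121a_nt.FreeSubgroups.result (N : ℕ) :
    ∃ m₀ : ℕ, 0 < m₀ ∧
      (∀ (G : Type) [Group G] [Finite G], Nat.card G ≤ N →
        ∃ ι : G →* Equiv.Perm (Fin m₀), ∀ g : G, g ≠ 1 → ∀ x, ι g x ≠ x) ∧
      ∀ m : ℕ, 0 < m → m₀ ∣ m → ∀ (Γ : Type) [Group Γ] [Finite Γ] (j : Equiv.Perm (Fin m) →* Γ)
        (G : Type) [Group G] [Finite G], Nat.card G ≤ N → ∀ ι : G →* Equiv.Perm (Fin m),
        (∀ g : G, g ≠ 1 → ∀ x, ι g x ≠ x) →
        ∀ χ ∈ Irr G, ∃ (k n : ℕ) (H : Fin n → Subgroup Γ) (l : ∀ i, H i →* ℂˣ), 0 < k ∧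
          (∀ σ, (k : ℂ) * ind (j.comp ι) χ σ =
            ∑ i, ind (H i).subtype (fun h => ((l i h : ℂˣ) : ℂ)) σ) ∧
          ∀ (s₀ : ℂ) (A : ArtinData Γ s₀) (M : (G → ℂ) → ℂ → ℂ), Induced (j.comp ι) A M →
            (fun s => M χ s ^ k) =ᶠ[𝓝[≠] s₀] (fun s => ∏ i, A.Lin (H i) (l i) s) ∧
              0 ≤ meromorphicOrderAt (M χ) s₀ := by
  obtain ⟨m₀, h0, h1, h2⟩ := main N 1 one_pos
  refine ⟨m₀, h0, h1, ?_⟩
  intro m hm hd Γ _ _ j G _ _ hG ι hι χ hχ
  obtain ⟨h3, h4⟩ := h2 m hm hd Γ j G hG ι hι
  obtain ⟨k, n, H, l, hk, h5, h6⟩ := h3 χ hχ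
  refine ⟨k, n, H, l, hk, h5, fun s₀ A M hM => ⟨h6 s₀ A M hM, ?_⟩⟩
  obtain ⟨o, h7, -⟩ := h4 s₀ A M hM
  rw [(h7 χ hχ).1]
  exact_mod_cast (h7 χ hχ).2
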