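import Mathlib
import Pool.Agent.Y788.SLS.Main

/-!
# Artin's holomorphy conjecture for extensions with an arbitrary Galois group inside extensions
whose group contains `SL_n(F)`, `F` a finite field of characteristic two

`Pool.Agent.H541R3.ART.Irr G` is the set of irreducible complex characters of the finite group `G`.

`Pool.Agent.H541R3.ART.ArtinData Γ s₀` is a family of functions with the formal properties of the
Artin L-functions of a Galois extension `E/K₀` with group `Γ` near a point `s₀ ≠ 1`: functions
`L ψ` for the irreducible characters `ψ` of `Γ` and `Lin H l` for the linear characters `l` of the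
subgroups `H`, such that `L ψ` is meromorphic and not identically zero near `s₀` (Brauer), `Lin H l`
has no pole at `s₀` (Artin reciprocity and Hecke), and `Lin H l` is the product of the
`L ψ ^ ⟨ψ|_H, l⟩` (induction).

`Pool.Agent.Y786.FR.Induced ι A M`, for an embedding `ι` of `G` in `Γ`, says that near `s₀` the
function `M χ` is the product of the `L ψ ^ ⟨ψ ∘ ι, χ⟩` for every irreducible character `χ` of `G`:
by the induction property this is the Artin L-function `L(s, χ, E/K)`, where `K` is the fixed field
of `ι(G)`.

`Pool.Agent.Y786.FR.ind ι χ` is the induced class function: its value at `σ` is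
`|G|⁻¹ ∑_τ χ(ι⁻¹(τ⁻¹ σ τ))`, the sum over the `τ` in `Γ` with `τ⁻¹ σ τ` in `ι(G)`.
-/

set_option autoImplicit false

open Matrix Pool.Agent.H541R3.ART Pool.Agent.Y786.FR Pool.Agent.Y788.SL Filter Topology

/-- (1) Every finite group `G` has, for a suitable `n` and a suitable finite field `F` of
characteristic two, an embedding `ι` in `SL_n(F)` as in (2).

(2) Let `F` be a finite field of characteristic two with `q` elements and let `G` be a finite group
with an embedding `ι` in `SL_n(F)` such that all eigenvalues of the matrices `ι g` lie in `F`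
(`g ^ (2 ^ a (q - 1)) = 1`) and such that `n = 2` or `q ≥ 42 n |G|`. Let `Γ` be any finite group
containing `SL_n(F)` (through `j`). For every irreducible character `χ` of `G` some positive
multiple of the character of `Γ` induced from `χ` is a sum of characters induced from linear
characters `l i` of SOLVABLE subgroups `H i` of `Γ`. Consequently, for every Galois extension `E/K₀` of number
fields with group `Γ` and with `K` the fixed field of `G`, the `k`-th power of the Artin L-function
`M χ = L(s, χ, E/K)` is the product of the Hecke L-functions `Lin (H i) (l i)`, and `M χ` is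
holomorphic at every point `s₀ ≠ 1`. -/
theorem Pool.Agent.Results.MP_d2121a_nt.LinearSubgroups.result :
    (∀ (G : Type) [Group G] [Finite G],
      ∃ (n : ℕ) (F : Type) (_ : Field F) (_ : Finite F) (_ : CharP F 2)
        (ι : G →* SpecialLinearGroup (Fin n) F), Function.Injective ι ∧
        (∀ g : G, ∃ a : ℕ, g ^ (2 ^ a * (Nat.card F - 1)) = 1) ∧
        42 * n * Nat.card G ≤ Nat.card F) ∧
    ∀ (F : Type) [Field F] [Finite F] [CharP F 2] (n : ℕ) (Γ : Type) [Group Γ] [Finite Γ]
      (j : SpecialLinearGroup (Fin n) F →* Γ) (G : Type) [Group G] [Finite G]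
      (ι : G →* SpecialLinearGroup (Fin n) F), Function.Injective ι →
      (∀ g : G, ∃ a : ℕ, g ^ (2 ^ a * (Nat.card F - 1)) = 1) →
      (n = 2 ∨ 42 * n * Nat.card G ≤ Nat.card F) →
      ∀ χ ∈ Irr G, ∃ (k m : ℕ) (H : Fin m → Subgroup Γ) (l : ∀ i, H i →* ℂˣ), 0 < k ∧
        (∀ i, Group.IsSolvable (H i)) ∧
        (∀ σ, (k : ℂ) * ind (j.comp ι) χ σ =
          ∑ i, ind (H i).subtype (fun h => ((l i h : ℂˣ) : ℂ)) σ) ∧
        ∀ (s₀ : ℂ) (A : ArtinData Γ s₀) (M : (G → ℂ) → ℂ → ℂ), Induced (j.comp ι) A M →
          (fun s => M χ s ^ k) =ᶠ[𝓝[≠] s₀] (fun s => ∏ i, A.Lin (H i) (l i) s) ∧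
            0 ≤ meromorphicOrderAt (M χ) s₀ := by
  refine ⟨Pool.Agent.Y43.SL.t_K, ?_⟩
  intro F _ _ _ n Γ _ _ j G _ _ ι hι hexp hq χ hχ
  obtain ⟨k, m, H, l, hk, hsol, hid, hA, -⟩ :=
    Pool.Agent.Y788.SLS.smain F n Γ j G ι hι hexp hq χ hχ
  exact ⟨k, m, H, l, hk, hsol, hid, hA⟩
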