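import Mathlib
import Pool.Agent.Y788.VFin

/-!
# Artin's holomorphy conjecture at zeros of small order: reduction to quasi-simple groups and a
local criterion

`Pool.Agent.H541R3.ART.Irr G` is the set of irreducible complex characters of the finite group `G`.

`Pool.Agent.H541R3.ART.ArtinData G s₀` is a family of functions with the formal properties of the
Artin L-functions of a Galois extension `E/K` with group `G` near a point `s₀ ≠ 1`: functions
`L χ` for the irreducible characters `χ` of `G` and `Lin H ψ` for the linear characters `ψ` of the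
subgroups `H`, such that `L χ` is meromorphic and not identically zero near `s₀` (Brauer), `Lin H ψ`
has no pole at `s₀` (Artin reciprocity and Hecke), and `Lin H ψ` is the product of the
`L χ ^ ⟨χ|_H, ψ⟩` (induction). In particular `Lin ⊥ 1` stands for the Dedekind zeta function of `E`.

`Pool.Agent.Y788.V.LTData A` are functions with the formal properties of the Artin L-functions of
the irreducible characters of degree two with solvable image of the subgroups of `G`; they have no
pole at `s₀` by the theorem of Langlands and Tunnell. The condition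
`∃ k, ∀ x ∈ derivedSeries H k, ψ x = ψ 1` says that `H` modulo the kernel of `ψ` is solvable.

`Pool.Agent.Y788.QuasiSimple Q`: `Q` is perfect and `Q / Z(Q)` is simple.

`Pool.Agent.Y788.V.RigidV r Q` says that every Heilbronn function of degree at most `r` on `Q` which
is a virtual character is constant: a Heilbronn function is a class function whose restriction to
every subgroup `H` has a nonnegative integer multiplicity against every linear character of `H`, and
its degree is its value at `1`.

`Pool.Agent.Y788.SubQ G S`: `S` is a quotient of a subnormal subgroup of `G`; for simple `S` this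
says that `S` is a composition factor of `G`.

`Pool.Agent.Y788.V.RankGe p m Z`, for a subgroup `Z` of `Q`: if `K` is a proper subgroup of a Sylow
`p`-subgroup `P` of `Q` which contains `P ∩ Z` and is strongly closed in `P` with respect to `Q`
(all conjugates in `Q` of elements of `K` which lie in `P` lie in `K`), then `P / K` has an
elementary abelian subgroup `E / K` of order `p ^ m`.

`Pool.Agent.Y788.V.NoRep p s Q`: if the character of a representation of degree `s` of a Sylow
`p`-subgroup `P` of `Q` takes the same value at elements of `P` which are conjugate in `Q`, and if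
the elements of `P ∩ Z(Q)` act as scalars, then all elements of `P` act as scalars.

`Pool.Agent.Y788.V.PrimeOK r p Q` is the condition at the prime `p`: `RankGe p r 1`, or
`RankGe p m Z(Q)` for some `m` with `m > r` or `m = r ≠ 2, 4`, or `NoRep p s Q` for all `s ≤ r`
with `s ≥ p` and (if `p ≠ 2`) `s ≥ 5`.

`Pool.Agent.Y788.SympFree r S`: the group `S` is not a quotient of an irreducible subgroup of
`Sp_{2n}(p)` with `p` prime, `n ≥ 1` and `p ^ n ≤ r`. The symplectic group is described as the group
of isometries of a nondegenerate alternating pairing, with values in the nonzero complex numbers, on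
an elementary abelian group of order `p ^ (2 n)` (`Pool.Agent.Y788.Symp` and
`Pool.Agent.Y788.IsoIrr`).

`Pool.Agent.Y788.res G` is the intersection of the derived series of `G`; it is the smallest normal
subgroup with solvable quotient.

`Pool.Agent.W446.AS.Frame X F D`: the centre `Z` of `X` is cyclic and contains all abelian normal
subgroups of `X`, and `F` is a normal subgroup of `X` containing `Z` such that `F / Z` is abelian of
order `D ^ 2 > 1` and the centraliser of `F` in `X` is `Z`.
-/

set_option autoImplicit false

open Pool.Agent.H541R3.ART Pool.Agent.W446.AS Pool.Agent.Y788 Pool.Agent.Y788.V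

/-- Let `G` be the Galois group of `E/K` and let `r` be the order of `ζ_E` at `s₀`. Suppose that
every quasi-simple quotient `Q` of a subnormal subgroup of `G` satisfies `RigidV r Q`, or the
condition `PrimeOK r p Q` for all primes `p ≤ r` (only for `p = 2` if `r ≤ 4`), for example because
all quotients `P / K` of its Sylow `p`-subgroups by proper strongly closed subgroups have `p`-rank
at least `r`. If `r ≥ 4`,
suppose in addition that no nonabelian composition factor of `G` is a quotient of an irreducible
subgroup of `Sp_{2n}(p)` with `p ^ n ≤ r`. Let `Y = G / res G` be the largest solvable quotient of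
`G`. Then `L χ` is holomorphic and nonzero at `s₀` for every irreducible character `χ` of `G` which
does not factor through `Y`. If `r ≤ 2`, all `L χ` are holomorphic at `s₀` by the theorem of
Langlands and Tunnell. If the irreducible characters of `Y` are monomial, all `L χ` are holomorphic
at `s₀`. If some `L χ` has a pole at `s₀`, some quotient `X` of a subgroup of `Y` has a frame `F` of
degree `D` such that `2 D ≤ r`, or `D ≤ r` and `X / F` is cyclic. No `L χ` has a pole at `s₀` in
each of the following cases: `r ≤ 2 P - 2` and all prime divisors of `|Y|` are at least `P ≥ 3`;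
`r ≤ 12` and `|Y|` is prime to `6`; `r ≤ 10` and `|Y|` is odd and divisible neither by `375` nor by
`1215`; the `L`-functions of degree two with solvable image have no pole at `s₀`, `r ≤ 6`, and
`r ≤ 2` if `108` divides `|Y|`, `r ≤ 3` if `160` divides `|Y|`, `r ≤ 4` if `375` divides `|Y|`. -/
theorem Pool.Agent.Results.MP_d2121a_nt.LocalRanks.result
    (G : Type) [Group G] [Finite G] (s₀ : ℂ) (A : ArtinData G s₀) (r : ℕ)
    (hr : meromorphicOrderAt (A.Lin ⊥ 1) s₀ = (r : WithTop ℤ))
    (hq : ∀ (Q : Type) [Group Q], QuasiSimple Q → SubQ G Q → RigidV r Q ∨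
      ∀ p : ℕ, p.Prime → p ≤ r → p = 2 ∨ 5 ≤ r → PrimeOK r p Q)
    (hs : r ≤ 3 ∨ ∀ (S : Type) [Group S], IsSimpleGroup S → (∃ a b : S, a * b ≠ b * a) →
      SubQ G S → SympFree r S) :
    (∀ χ ∈ Irr G, (∃ n ∈ res G, χ n ≠ χ 1) → meromorphicOrderAt (A.L χ) s₀ = 0) ∧
    (Nonempty (LTData A) → r ≤ 2 → ∀ χ ∈ Irr G, 0 ≤ meromorphicOrderAt (A.L χ) s₀) ∧
    ((∀ χ ∈ Irr G, (∀ n ∈ res G, χ n = χ 1) → IsMonomialChar χ) →
      ∀ χ ∈ Irr G, 0 ≤ meromorphicOrderAt (A.L χ) s₀) ∧
    ∀ (Y : Type) [Group Y] (π : G →* Y), Function.Surjective π → π.ker = res G →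
      ((∃ χ ∈ Irr G, meromorphicOrderAt (A.L χ) s₀ < 0) →
        ∃ (H : Subgroup Y) (X : Type) (_ : Group X) (f : H →* X) (F : Subgroup X) (D : ℕ),
          Function.Surjective f ∧ Frame X F D ∧ (Nonempty (LTData A) → D ≠ 2) ∧
          (2 * D ≤ r ∨ (D ≤ r ∧ ∃ g : X, F ⊔ Subgroup.zpowers g = ⊤))) ∧
      (((∃ P : ℕ, 3 ≤ P ∧ r ≤ 2 * P - 2 ∧ ∀ q : ℕ, q.Prime → q ∣ Nat.card Y → P ≤ q) ∨
          (r ≤ 12 ∧ (Nat.card Y).Coprime 6) ∨
          (r ≤ 10 ∧ Odd (Nat.card Y) ∧ ¬ 375 ∣ Nat.card Y ∧ ¬ 1215 ∣ Nat.card Y) ∨
          (Nonempty (LTData A) ∧ r ≤ 6 ∧ (108 ∣ Nat.card Y → r ≤ 2) ∧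
            (160 ∣ Nat.card Y → r ≤ 3) ∧ (375 ∣ Nat.card Y → r ≤ 4))) →
        ∀ χ ∈ Irr G, 0 ≤ meromorphicOrderAt (A.L χ) s₀) := by
  obtain ⟨h1, h2, h3⟩ := artin_resV A hr (rigid_of_local hq hs)
  refine ⟨h1, fun hT hr2 => ?_, h2, h3⟩
  exact (h3 (G ⧸ res G) (QuotientGroup.mk' (res G)) (QuotientGroup.mk'_surjective _)
    (QuotientGroup.ker_mk' _)).2 (Or.inr (Or.inr (Or.inr ⟨hT, by omega, fun _ => hr2,
      fun _ => by omega, fun _ => by omega⟩)))
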